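import Pool.Agent.Run7.h414.BS.Main

/-!
# MP_28724c_co: Ramsey colourings with block symmetry

The vertices are words, that is functions from a finite set `I` of positions to an alphabet `A`.
The positions are divided into blocks by a map `b : I → R`, and a red/blue colouring of the pairs
of words is encoded by the graph `G` of the red pairs. `BlockSym b V G` says that the set `V` of
words and the colours of the pairs in `V` are invariant under all permutations of the positions
which preserve the blocks, and `NoMono V G k` says that all monochromatic subsets of `V` have fewer
than `k` elements.

With one block and two letters these are the colourings of set systems by the sizes of the sets and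
of their intersections, such as the colouring of Frankl and Wilson; with blocks of size one there
is no restriction, and `k / 2` blocks of size one suffice for the lower bound `2 ^ (k / 2)` of
Erdős. So the number `r` of the blocks interpolates between the explicit and the random colourings.

1. An invariant set `V` of words over `q` letters with `r` blocks which is coloured without
   monochromatic `k`-sets satisfies `log |V| ≤ C r (q log q) k ^ ε`, where `C` depends only on `ε`.
2. If `V` is the set of all words over an alphabet with at least two letters, then the number of
   positions is at most `C r k ^ ε`, where `C` depends only on `ε`.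
3. For `r ≤ k / 2` there is such a colouring of the `2 ^ r` words over two letters of length `r`.
-/

set_option autoImplicit false

namespace Pool.Agent.Results.MP_28724c_co.BlockSymmetricColourings

open Pool.Agent.Run7.h414.BS

/-- **Main result.** -/
theorem result :
    (∀ ε : ℝ, 0 < ε → ∃ C : ℝ, ∀ (I R A : Type) [Fintype I] [Fintype R] [Fintype A] (b : I → R)
      (V : Set (I → A)) (G : SimpleGraph (I → A)) (k : ℕ), 1 ≤ k → BlockSym b V G →
      NoMono V G k → Real.log V.ncard ≤
        C * Fintype.card R * (Fintype.card A * Real.log (Fintype.card A)) * (k : ℝ) ^ ε) ∧
    (∀ ε : ℝ, 0 < ε → ∃ C : ℝ, ∀ (I R A : Type) [Fintype I] [Fintype R] [Nontrivial A]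
      (b : I → R) (G : SimpleGraph (I → A)) (k : ℕ), 1 ≤ k → BlockSym b Set.univ G →
      NoMono Set.univ G k → (Fintype.card I : ℝ) ≤ C * Fintype.card R * (k : ℝ) ^ ε) ∧
    (∀ k r : ℕ, 3 ≤ k → 2 * r ≤ k → ∃ G : SimpleGraph (Fin r → Bool),
      BlockSym (id : Fin r → Fin r) Set.univ G ∧ NoMono Set.univ G k) :=
  ⟨general, cube, erdos_words⟩

end Pool.Agent.Results.MP_28724c_co.BlockSymmetricColourings
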