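import Pool.Agent.Run7.h571.RD.Growth

/-!
# Diagonal Ramsey numbers of distance colourings: the critical dimension is `k ^ 2`

Colour the pairs of `n` points of `ℝ ^ r` by whether their distance is at most one or larger than
one, and let `distRamsey r k` be the least `n` for which there always are `k` points all of whose
mutual distances have the same colour. For `r ≥ R(k, k) - 1` this is the diagonal Ramsey number
`R(k, k)`. We show
`c min (k, √ r) ≤ log (distRamsey r k) ≤ C (log k + √(r log (2 + k / √ r)))`,
so for dimensions `r = r(k)` the growth rate `log (distRamsey r k) / k` tends to zero if and only if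
`r = o(k ^ 2)`.

Upper bound: among points in a ball of square radius `1 / 2 + u` either a proportion `p` lies in a
ball of square radius `1 / 2 + u - u ^ 2 / 2`, or some point can be put into a set of points with
large mutual distances at the cost of a proportion `p` of the others; below `1 / 2` sets with
mutual distances larger than one are bounded, and one passes from `1 / 2 + 1 / J` to
`1 / 2 - 1 / J` by a cap of a ball; the theorem of Erdős and Szekeres finishes the proof. Lower
bound: random sign vectors; the event that all inner products between two sets of `m` vectors are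
nonnegative has probability at most `2 exp (- m ^ 2 / 262144)` if `r ≥ 500000 m ^ 2` (exponential
moments for the sum, a Fejer kernel for the event that many of them are small).
-/

open Filter Topology

namespace Pool.Agent.Results.MP_28724c_co.DistanceColourings

open Run7.h571.RD

theorem result :
    -- `distRamsey r k` is the Ramsey number of the distance colourings in dimension `r`
    (∀ r k n : ℕ, (∀ x : Fin n → EuclideanSpace ℝ (Fin r), ∃ S : Finset (Fin n),
      S.card = k ∧ Homog x S) ↔ distRamsey r k ≤ n) ∧
    -- it is at most `R(k, k)`, with equality in high dimension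
    (∀ r k : ℕ, distRamsey r k ≤ ramsey k) ∧
    (∀ r k : ℕ, ramsey k ≤ r + 1 → distRamsey r k = ramsey k) ∧
    -- the two bounds
    (∃ c C : ℝ, 0 < c ∧ 0 < C ∧ ∀ r k : ℕ, 1 ≤ r → 2 ≤ k →
      c * min (k : ℝ) (√r) ≤ Real.log (distRamsey r k) ∧
      Real.log (distRamsey r k) ≤ C * (Real.log k + √(r * Real.log (2 + k / √r)))) ∧
    -- the growth rate is zero if and only if `r = o(k ^ 2)`
    (∀ r : ℕ → ℕ, Tendsto (fun k : ℕ => Real.log (distRamsey (r k) k) / k) atTop (𝓝 0) ↔
      Tendsto (fun k : ℕ => (r k : ℝ) / (k : ℝ) ^ 2) atTop (𝓝 0)) := by
  obtain ⟨c, hc, hlow⟩ := lower_bound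
  obtain ⟨C, hC, hup⟩ := upper_bound
  exact ⟨good_iff, distRamsey_le_ramsey, distRamsey_eq,
    ⟨c, C, hc, hC, fun r k hr hk => ⟨hlow r k hr hk, hup r k hr hk⟩⟩, growth⟩

end Pool.Agent.Results.MP_28724c_co.DistanceColourings
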