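import Pool.Agent.Run7.h614.RA.Growth

/-!
# Colour changes in the rows of colourings without monochromatic `K_k`

A two-colouring of the edges of the complete graph on `{0, …, n - 1}` is given by the graph `G` of
its red edges. A colour change in the row of the vertex `v` is a vertex `w > v` such that the edges
`{v, w}` and `{v, w + 1}` have different colours; so only the entries above the diagonal of the
colour matrix are looked at. `alt G` is the number of all colour changes. Since `G` is an arbitrary
colouring of an initial segment, (1) holds for every colouring and every order of its vertices.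

(1) and (2): the least possible value of `alt G / n ^ 2` is `exp (-Θ (√k))`.
(3) to (5): the same result as a statement on the Ramsey numbers of the colourings with at most `t n`
changes. For `t = exp (l k)`, `l ≤ (log 2) / 2`, the limit of the question exists for these
colourings and is `l`.

Proof. Lower bounds: lexicographic powers of random colourings, in the lexicographic order. Upper
bounds: in every set `U` of vertices with few changes there is a block `A` of consecutive vertices,
near the end of `U`, such that most vertices of `U` are joined to `A` in one colour; the set of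
exceptions (among them all vertices after `A`) is not bounded, it is a small part of `U`. A potential
argument with these losses, in the parameters `w(U)`, `w'(U)` (the two clique numbers), gives the
bounds of all levels. The inequality `analytic` and the asymptotic lemmas are those of the starting
results for twin-width.
-/

namespace Pool.Agent.Results.MP_28724c_co.RowChanges

open Filter Topology

open Classical

/-- The colouring with colour classes `G` and `Gᶜ` has no monochromatic `K_k`. -/
def NoMono {V : Type*} (G : SimpleGraph V) (k : ℕ) : Prop :=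
  G.CliqueFree k ∧ Gᶜ.CliqueFree k

/-- The diagonal Ramsey number `R(k,k)`. -/
noncomputable def ramsey (k : ℕ) : ℕ :=
  sInf {n : ℕ | ∀ G : SimpleGraph (Fin n), ¬ NoMono G k}

/-- The number of colour changes in the row of `v` to the right of the diagonal: the number of
`w > v` with `w + 1 < n` such that `{v, w}` and `{v, w + 1}` have different colours. -/
noncomputable def rowChanges {n : ℕ} (G : SimpleGraph (Fin n)) (v : Fin n) : ℕ :=
  (Finset.univ.filter (fun w : Fin n =>
    v < w ∧ ∃ h : (w : ℕ) + 1 < n, ¬ (G.Adj v w ↔ G.Adj v ⟨w + 1, h⟩))).card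

/-- The number of all colour changes above the diagonal. -/
noncomputable def alt {n : ℕ} (G : SimpleGraph (Fin n)) : ℕ := ∑ v, rowChanges G v

/-- The largest number `n` of vertices of a colouring without monochromatic `K_k` such that each row
has at most `t` changes. -/
noncomputable def rowOrder (k t : ℕ) : ℕ :=
  sSup {n : ℕ | ∃ G : SimpleGraph (Fin n), NoMono G k ∧ ∀ v, rowChanges G v ≤ t}

/-- The largest number `n` of vertices of a colouring without monochromatic `K_k` with at most `t n`
changes. -/
noncomputable def altOrder (k t : ℕ) : ℕ :=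
  sSup {n : ℕ | ∃ G : SimpleGraph (Fin n), NoMono G k ∧ alt G ≤ t * n}

/-- **Main result.** -/
theorem result :
    -- (1) In every order, a colouring without monochromatic `K_k` has at least
    -- `n ^ 2 exp (-C √k) - n` colour changes above the diagonal.
    (∃ C : ℝ, 0 < C ∧ ∀ (k n : ℕ) (G : SimpleGraph (Fin n)), NoMono G k →
      (n : ℝ) ^ 2 ≤ ((alt G : ℝ) + n) * Real.exp (C * Real.sqrt k)) ∧
    -- (2) This is sharp up to the constant: all rows may have at most `n exp (- √k / 10)` changes.
    (∀ k : ℕ, 1000 ≤ k → ∃ (n : ℕ) (G : SimpleGraph (Fin n)), NoMono G k ∧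
      Real.exp (Real.sqrt k / 10) ≤ n ∧
      ∀ v, (rowChanges G v : ℝ) ≤ n * Real.exp (-(Real.sqrt k / 10))) ∧
    -- (3) Every `t`: up to a factor `exp (O (√k))` the largest number of vertices is the smaller one
    -- of `t` and of the unrestricted number `R(k,k) - 1`.
    (∃ C : ℝ, 0 < C ∧ ∀ k t : ℕ, 1 ≤ k →
      min (t + 2) (ramsey k - 1) ≤ rowOrder k t ∧ rowOrder k t ≤ altOrder k t ∧
      altOrder k t ≤ ramsey k - 1 ∧
      (altOrder k t : ℝ) ≤ 2 * ((t : ℝ) + 1) * Real.exp (C * Real.sqrt k)) ∧
    -- (4) For `t = exp (l k)` the growth rate is exactly `l` for `l ≤ (log 2) / 2`.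
    (∀ l : ℝ, 0 < l → l ≤ Real.log 2 / 2 →
      Tendsto (fun k : ℕ => Real.log (rowOrder k ⌊Real.exp (l * k)⌋₊) / k) atTop (𝓝 l) ∧
      Tendsto (fun k : ℕ => Real.log (altOrder k ⌊Real.exp (l * k)⌋₊) / k) atTop (𝓝 l)) ∧
    -- (5) For `t = exp (k ^ θ)`, `0 < θ < 1`, `1 / θ` not an integer, the logarithm of the largest
    -- number of vertices is `(⌊1 / θ⌋ + o(1)) k ^ θ`.
    (∀ θ : ℝ, 0 < θ → θ < 1 → (∀ j : ℕ, θ * j ≠ 1) →
      Tendsto (fun k : ℕ => Real.log (rowOrder k ⌊Real.exp ((k : ℝ) ^ θ)⌋₊) / (k : ℝ) ^ θ) atTop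
        (𝓝 (⌊1 / θ⌋₊ : ℝ)) ∧
      Tendsto (fun k : ℕ => Real.log (altOrder k ⌊Real.exp ((k : ℝ) ^ θ)⌋₊) / (k : ℝ) ^ θ) atTop
        (𝓝 (⌊1 / θ⌋₊ : ℝ))) := by
  refine ⟨Pool.Agent.Run7.h614.RA.many_changes, Pool.Agent.Run7.h614.RA.few_changes, ?_, ?_, ?_⟩
  · obtain ⟨C, hC, h⟩ := Pool.Agent.Run7.h614.RA.upper_one
    refine ⟨C, hC, fun k t hk => ⟨Pool.Agent.Run7.h614.RA.min_le_row k t hk,
      Pool.Agent.Run7.h614.RA.row_le_alt k t, ?_, h k t⟩⟩
    have h1 : altOrder k t < ramsey k := Pool.Agent.Run7.h614.RA.alt_lt_ramsey k t hk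
    omega
  · intro l h0 hl
    exact ⟨Pool.Agent.Run7.h614.RA.rate l h0 hl (fun k => rowOrder k ⌊Real.exp (l * k)⌋₊)
      (fun k => le_refl _) (fun k => Pool.Agent.Run7.h614.RA.row_le_alt k _),
      Pool.Agent.Run7.h614.RA.rate l h0 hl (fun k => altOrder k ⌊Real.exp (l * k)⌋₊)
      (fun k => Pool.Agent.Run7.h614.RA.row_le_alt k _) (fun k => le_refl _)⟩
  · intro θ h0 hθ hne
    obtain ⟨g1, g2, g3⟩ := Pool.Agent.N920.TW.floor_facts θ h0 hθ hne
    exact ⟨Pool.Agent.Run7.h614.RA.growth θ h0 _ g1 g2 g3
      (fun k => rowOrder k ⌊Real.exp ((k : ℝ) ^ θ)⌋₊) (fun k => le_refl _)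
      (fun k => Pool.Agent.Run7.h614.RA.row_le_alt k _),
      Pool.Agent.Run7.h614.RA.growth θ h0 _ g1 g2 g3
      (fun k => altOrder k ⌊Real.exp ((k : ℝ) ^ θ)⌋₊)
      (fun k => Pool.Agent.Run7.h614.RA.row_le_alt k _) (fun k => le_refl _)⟩

end Pool.Agent.Results.MP_28724c_co.RowChanges
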